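import Pool.Agent.H5.CcsCore

set_option autoImplicit false

namespace Pool.Agent.Results.MP_d10958_an.NoCcs

open Metric Set RCLike Pool.Agent.H5

universe u

variable {𝕜 : Type} [RCLike 𝕜] {X : Type u} [NormedAddCommGroup X] [NormedSpace 𝕜 X]

/-- the slice of the unit ball given by `f` and `δ` -/
def slice (f : StrongDual 𝕜 X) (δ : ℝ) : Set X :=
  {y | ‖y‖ ≤ 1 ∧ sSup ((fun z => re (f z)) '' closedBall 0 1) - δ < re (f y)}

/-- `C` is a convex combination of slices of the unit ball -/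
def IsCcs (𝕜 : Type) [RCLike 𝕜] {X : Type u} [NormedAddCommGroup X] [NormedSpace 𝕜 X]
    (C : Set X) : Prop :=
  ∃ (n : ℕ) (f : Fin n → StrongDual 𝕜 X) (δ l : Fin n → ℝ),
    (∀ i, 0 < δ i ∧ 0 < l i ∧ l i ≤ 1) ∧ ∑ i, l i = 1 ∧
      C = {z | ∃ y : Fin n → X, (∀ i, y i ∈ slice (f i) (δ i)) ∧ z = ∑ i, (l i : 𝕜) • y i}

/-- `x` is a ccs Delta-point -/
def CcsDelta (𝕜 : Type) [RCLike 𝕜] {X : Type u} [NormedAddCommGroup X] [NormedSpace 𝕜 X]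
    (x : X) : Prop :=
  ‖x‖ = 1 ∧ ∀ C : Set X, IsCcs 𝕜 C → x ∈ C → sSup ((fun y => ‖x - y‖) '' C) = 2

/-- property (A) -/
def PropA (𝕜 : Type) [RCLike 𝕜] (X : Type u) [NormedAddCommGroup X] [NormedSpace 𝕜 X] : Prop :=
  ∃ (A : Set (X →L[𝕜] X)) (c : ℝ), c < 2 ∧
    (∀ T ∈ A, FiniteDimensional 𝕜 T.range ∧ ‖ContinuousLinearMap.id 𝕜 X - T‖ ≤ c) ∧
      ∀ ε : ℝ, 0 < ε → ∀ x : X, ∃ T ∈ A, ‖x - T x‖ < ε

/-- A space with property (A) has no ccs Delta-point. -/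
theorem result (𝕜 : Type) [RCLike 𝕜] (X : Type u) [NormedAddCommGroup X] [NormedSpace 𝕜 X]
    [CompleteSpace X] (hA : PropA 𝕜 X) (x : X) : ¬ CcsDelta 𝕜 x := by
  rintro ⟨hx, h⟩
  have hB : CcsCore.Avg 𝕜 x := by
    intro n hn f δ η hδ hη
    have hn' : (0 : ℝ) < n := by exact_mod_cast hn
    have hs : ∑ _i : Fin n, (n : ℝ)⁻¹ = 1 := by simp [hn'.ne']
    let α : Fin n → ℝ := fun i =>
      sSup ((fun z => re (f i z)) '' closedBall 0 1) - (re (f i x) - δ)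
    have h2 : ∀ i, 0 < α i := fun i => by
      have : re (f i x) ≤ sSup ((fun z => re (f i z)) '' closedBall 0 1) := by
        refine le_csSup ⟨‖f i‖, ?_⟩ ⟨x, mem_closedBall_zero_iff.2 hx.le, rfl⟩
        rintro _ ⟨z, hz, rfl⟩
        exact (re_le_norm _).trans ((f i).unit_le_opNorm z (mem_closedBall_zero_iff.1 hz))
      simp only [α]
      linarith
    have h5 : x ∈ {z | ∃ y : Fin n → X, (∀ i, y i ∈ slice (f i) (α i)) ∧
        z = ∑ i, (((n : ℝ)⁻¹ : ℝ) : 𝕜) • y i} :=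
      ⟨fun _ => x, fun i => ⟨hx.le, by simp only [α]; linarith⟩,
        by rw [← Finset.sum_smul, ← ofReal_sum, hs, ofReal_one, one_smul]⟩
    have h6 := h _ ⟨n, f, α, fun _ => (n : ℝ)⁻¹, fun i => ⟨h2 i, inv_pos.2 hn',
      inv_le_one_of_one_le₀ (by exact_mod_cast hn)⟩, hs, rfl⟩ h5
    obtain ⟨_, ⟨_, ⟨y, hy, rfl⟩, rfl⟩, h7⟩ := exists_lt_of_lt_csSup ⟨_, mem_image_of_mem _ h5⟩
      ((sub_lt_self 2 hη).trans_eq h6.symm)
    exact ⟨y, fun i => ⟨(hy i).1, by simpa only [α, sub_sub_cancel] using (hy i).2⟩, h7⟩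
  obtain ⟨A, c, hc, h1, h2⟩ := hA
  have hε : 0 < (2 - c) / 3 := by linarith
  obtain ⟨T, hT, h3⟩ := h2 _ hε x
  haveI := (h1 T hT).1
  obtain ⟨y, h4, h5, h6⟩ := CcsCore.core T.rangeRestrict hx hB hε hε
  have h7 : ‖y - T y‖ ≤ c :=
    ((ContinuousLinearMap.id 𝕜 X - T).unit_le_opNorm y h4).trans (h1 T hT).2
  have h8 : x - y = (x - T x) - (y - T y) + T (x - y) := by rw [map_sub]; abel
  have h9 : ‖T (x - y)‖ < (2 - c) / 3 := h5
  rw [h8] at h6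
  linarith [norm_add_le ((x - T x) - (y - T y)) (T (x - y)), norm_sub_le (x - T x) (y - T y)]

end Pool.Agent.Results.MP_d10958_an.NoCcs
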